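import Pool.Agent.N620.GP.Gp

set_option autoImplicit false

/-! Category in the space of sequences of reals, the reals being discrete. -/

namespace Pool.Agent.N620.SP

open Encodable Pool.Agent.Helper227
open Topology
open Pool.Agent.N620.WP (J)
open Pool.Agent.N620.RC (cl cl_J Tr)
open Pool.Agent.N620.GP

/-- The sigma-projective sets. -/
inductive Sp : Set (ℕ → Bool) → Prop
  | borel (A : Set (ℕ → Bool)) : MeasurableSet A → Sp A
  | compl (A : Set (ℕ → Bool)) : Sp A → Sp Aᶜ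
  | union (A : ℕ → Set (ℕ → Bool)) : (∀ n, Sp (A n)) → Sp (⋃ n, A n)
  | preimage (A : Set (ℕ → Bool)) (g : (ℕ → Bool) → ℕ → Bool) : Measurable g → Sp A → Sp (g ⁻¹' A)
  | proj (A : Set (ℕ → Bool)) : Sp A → Sp {x | ∃ y, join x y ∈ A}

theorem Sp.inter {A : ℕ → Set (ℕ → Bool)} (h : ∀ n, Sp (A n)) : Sp (⋂ n, A n) := by
  have h1 := Sp.compl _ (Sp.union _ fun n => Sp.compl _ (h n))
  rwa [Set.compl_iUnion, Set.iInter_congr fun n => compl_compl (A n)] at h1

/-- The reals with the discrete topology. -/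
@[ext]
structure DX where
  /-- the real -/
  r : ℕ → Bool

instance : TopologicalSpace DX := ⊥

instance : DiscreteTopology DX := ⟨rfl⟩

instance : BaireSpace (ℕ → DX) := inferInstance

/-- The sequence of the columns. -/
def dc (x : ℕ → Bool) : ℕ → DX := fun i => ⟨cl x i⟩

/-- `D` is comeager in the cylinder. -/
def Com (D : Set (ℕ → DX)) (z : ℕ → DX) (m : ℕ) : Prop :=
  ∀ᵇ y, y ∈ PiNat.cylinder z m → y ∈ D

theorem isOpen_cyl (z : ℕ → DX) (m : ℕ) : IsOpen (PiNat.cylinder z m) :=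
  PiNat.isOpen_cylinder (fun _ => DX) z m

theorem com_iInter {D : ℕ → Set (ℕ → DX)} {z : ℕ → DX} {m : ℕ} :
    Com (⋂ n, D n) z m ↔ ∀ n, Com (D n) z m := by
  unfold Com
  rw [← eventually_countable_forall]
  refine Filter.eventually_congr (Filter.Eventually.of_forall fun y => ?_)
  simp only [Set.mem_iInter]
  exact ⟨fun h n hy => h hy n, fun h hy n => h n hy⟩

theorem exists_of_com {D E : Set (ℕ → DX)} {z : ℕ → DX} {m : ℕ} (h : Com D z m) (h' : Com E z m) :
    ∃ y ∈ PiNat.cylinder z m, y ∈ D ∧ y ∈ E := by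
  have h1 : {y | (y ∈ PiNat.cylinder z m → y ∈ D) ∧ (y ∈ PiNat.cylinder z m → y ∈ E)} ∈
      residual (ℕ → DX) := h.and h'
  obtain ⟨y, hy, h2⟩ := (dense_of_mem_residual h1).inter_open_nonempty _ (isOpen_cyl z m)
    ⟨z, PiNat.self_mem_cylinder z m⟩
  exact ⟨y, hy, h2.1 hy, h2.2 hy⟩

theorem Com.anti {D : Set (ℕ → DX)} {z y : ℕ → DX} {m k : ℕ} (h : Com D z m)
    (hy : y ∈ PiNat.cylinder z m) (hk : m ≤ k) : Com D y k := by
  refine h.mono fun x hx h1 => hx ?_
  have h2 : PiNat.cylinder y m = PiNat.cylinder z m := PiNat.mem_cylinder_iff_eq.1 hy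
  rw [← h2]
  exact PiNat.cylinder_anti y hk h1

theorem exists_com {D : Set (ℕ → DX)} (hD : BaireMeasurableSet D) {z : ℕ → DX} {m : ℕ}
    (h : ¬ Com Dᶜ z m) : ∃ y ∈ PiNat.cylinder z m, ∃ k, m ≤ k ∧ Com D y k := by
  have h1 : BaireMeasurableSet (D ∩ PiNat.cylinder z m) :=
    hD.inter (isOpen_cyl z m).baireMeasurableSet
  obtain ⟨u, hu, h2⟩ := h1.residualEq_isOpen
  have h3 : (u ∩ PiNat.cylinder z m).Nonempty := by
    by_contra h3
    refine h ?_
    rw [Set.not_nonempty_iff_eq_empty] at h3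
    unfold Com
    filter_upwards [Filter.eventuallyEq_set.1 h2] with y hy h4 h5
    have h6 : y ∈ u ∩ PiNat.cylinder z m := ⟨hy.1 ⟨h5, h4⟩, h4⟩
    rw [h3] at h6
    exact h6
  obtain ⟨y, hy1, hy2⟩ := h3
  obtain ⟨s, ⟨x, n, rfl⟩, h4, h5⟩ := (PiNat.isTopologicalBasis_cylinders
    (fun _ => DX)).exists_subset_of_mem_open (a := y) hy1 hu
  refine ⟨y, hy2, max m n, le_max_left _ _, ?_⟩
  unfold Com
  filter_upwards [Filter.eventuallyEq_set.1 h2] with v hv h6
  have h7 : v ∈ PiNat.cylinder y n := PiNat.cylinder_anti y (le_max_right _ _) h6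
  rw [PiNat.mem_cylinder_iff_eq.1 h4] at h7
  exact (hv.2 (h5 h7)).1

theorem com_compl {D : Set (ℕ → DX)} (hD : BaireMeasurableSet D) {z : ℕ → DX} {m : ℕ} :
    Com Dᶜ z m ↔ ∀ k, ∀ y ∈ PiNat.cylinder z m, ¬ Com D y (m + k) := by
  constructor
  · intro h k y hy h1
    obtain ⟨x, -, h2, h3⟩ := exists_of_com (h.anti hy (Nat.le_add_right m k)) h1
    exact h2 h3
  · intro h
    by_contra h1
    obtain ⟨y, hy, k, hk, h2⟩ := exists_com hD h1
    obtain ⟨j, rfl⟩ := Nat.exists_eq_add_of_le hk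
    exact h j y hy h2

end Pool.Agent.N620.SP
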