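import Pool.Agent.N620.SP.Cat

set_option autoImplicit false

/-! Bounded sets are sigma-projective. -/

namespace Pool.Agent.N620.SP

open Encodable Pool.Agent.Helper227
open Topology
open Pool.Agent.N620.WP (J)
open Pool.Agent.N620.RC (cl cl_J Tr)
open Pool.Agent.N620.GP

/-- The first `m` columns of the first component, followed by the columns of the second one. -/
def mg (m : ℕ) (w : ℕ → Bool) : ℕ → Bool := fun n =>
  if n.unpair.1 < m then w (2 * n) else w (2 * n + 1)

theorem measurable_mg (m : ℕ) : Measurable (mg m) := by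
  refine measurable_pi_iff.2 fun n => ?_
  unfold mg
  by_cases h : n.unpair.1 < m
  · simp only [h, if_true]
    exact measurable_pi_apply _
  · simp only [h, if_false]
    exact measurable_pi_apply _

theorem mg_join (m : ℕ) (x y : ℕ → Bool) :
    mg m (join x y) = fun n => if n.unpair.1 < m then x n else y n := by
  funext n
  simp only [mg, join_even, join_odd]

theorem dc_mg (m : ℕ) (x y : ℕ → Bool) (i : ℕ) :
    dc (mg m (join x y)) i = if i < m then dc x i else dc y i := by
  rw [mg_join]
  by_cases h : i < m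
  · rw [if_pos h]
    refine DX.ext (funext fun n => ?_)
    simp [dc, cl, h]
  · rw [if_neg h]
    refine DX.ext (funext fun n => ?_)
    simp [dc, cl, h]

/-- The real whose columns are the members of the sequence. -/
def cj (z : ℕ → DX) : ℕ → Bool := J fun i => (z i).r

theorem cl_cj (z : ℕ → DX) (i : ℕ) : cl (cj z) i = (z i).r := cl_J (fun i => (z i).r) i

theorem dc_J (z : ℕ → DX) : dc (cj z) = z := funext fun i => DX.ext (cl_cj z i)

theorem exists_cyl (x : ℕ → Bool) (m : ℕ) (P : (ℕ → DX) → Prop) :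
    (∃ y ∈ PiNat.cylinder (dc x) m, P y) ↔ ∃ y : ℕ → Bool, P (dc (mg m (join x y))) := by
  constructor
  · rintro ⟨y, h1, h2⟩
    refine ⟨cj y, ?_⟩
    have h3 : dc (mg m (join x (cj y))) = y := by
      funext i
      rw [dc_mg, dc_J]
      by_cases h : i < m
      · rw [if_pos h]
        exact (PiNat.mem_cylinder_iff.1 h1 i h).symm
      · rw [if_neg h]
    rw [h3]
    exact h2
  · rintro ⟨y, h1⟩
    refine ⟨_, PiNat.mem_cylinder_iff.2 fun i hi => ?_, h1⟩
    rw [dc_mg, if_pos hi]

/-- The sets of sequences whose category quantifiers are sigma-projective. -/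
def Gd (D : Set (ℕ → DX)) : Prop :=
  BaireMeasurableSet D ∧ ∀ m, Sp {x | Com D (dc x) m}

theorem Gd.compl {D : Set (ℕ → DX)} (h : Gd D) : Gd Dᶜ := by
  refine ⟨h.1.compl, fun m => ?_⟩
  have h1 : {x | Com Dᶜ (dc x) m} =
      ⋂ k, {x | ∃ y, join x y ∈ mg m ⁻¹' {x | Com D (dc x) (m + k)}}ᶜ := by
    ext x
    simp only [Set.mem_iInter, Set.mem_compl_iff, Set.mem_ofPred_eq, Set.mem_preimage]
    rw [com_compl h.1]
    refine forall_congr' fun k => ?_
    rw [← exists_cyl x m fun y => Com D y (m + k)]
    push Not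
    rfl
  rw [h1]
  exact Sp.inter fun k => Sp.compl _ (Sp.proj _ (Sp.preimage _ _ (measurable_mg m) (h.2 _)))

theorem Gd.iInter {D : ℕ → Set (ℕ → DX)} (h : ∀ n, Gd (D n)) : Gd (⋂ n, D n) := by
  refine ⟨?_, fun m => ?_⟩
  · have h1 : BaireMeasurableSet (⋂ n, D n) := MeasurableSet.iInter fun n => (h n).1
    exact h1
  · have h1 : {x | Com (⋂ n, D n) (dc x) m} = ⋂ n, {x | Com (D n) (dc x) m} := by
      ext x
      simp only [Set.mem_iInter, Set.mem_ofPred_eq]
      exact com_iInter
    rw [h1]
    exact Sp.inter fun n => (h n).2 m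

theorem Gd.iUnion {D : ℕ → Set (ℕ → DX)} (h : ∀ n, Gd (D n)) : Gd (⋃ n, D n) := by
  have h1 := (Gd.iInter fun n => (h n).compl).compl
  rwa [Set.compl_iInter, Set.iUnion_congr fun n => compl_compl (D n)] at h1

theorem gd_empty : Gd ∅ := by
  refine ⟨isOpen_empty.baireMeasurableSet, fun m => ?_⟩
  have h1 : {x | Com ∅ (dc x) m} = ∅ := by
    refine Set.eq_empty_of_forall_notMem fun x hx => ?_
    obtain ⟨y, -, h2, -⟩ := exists_of_com hx hx
    exact h2
  rw [h1]
  exact Sp.borel _ MeasurableSet.empty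

theorem gd_eval (i n : ℕ) : Gd {z : ℕ → DX | (z i).r n = true} := by
  have ho : IsOpen {z : ℕ → DX | (z i).r n = true} :=
    (isOpen_discrete {x : DX | x.r n = true}).preimage
      (continuous_apply (A := fun _ : ℕ => DX) i)
  refine ⟨ho.baireMeasurableSet, fun m => ?_⟩
  by_cases h : i < m
  · have h1 : {x | Com {z : ℕ → DX | (z i).r n = true} (dc x) m} = {x | x (Nat.pair i n) = true} := by
      ext x
      simp only [Set.mem_ofPred_eq]
      constructor
      · intro h1
        obtain ⟨y, h2, h3, -⟩ := exists_of_com h1 h1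
        have h4 : (y i).r n = true := h3
        rw [PiNat.mem_cylinder_iff.1 h2 i h] at h4
        exact h4
      · intro h1
        refine Filter.Eventually.of_forall fun y hy => ?_
        have h2 := PiNat.mem_cylinder_iff.1 hy i h
        simp only [Set.mem_ofPred_eq, h2]
        exact h1
    rw [h1]
    have h2 : Measurable fun x : ℕ → Bool => x (Nat.pair i n) := measurable_pi_apply _
    exact Sp.borel _ (h2 (MeasurableSet.singleton true))
  · have h1 : {x | Com {z : ℕ → DX | (z i).r n = true} (dc x) m} = ∅ := by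
      refine Set.eq_empty_of_forall_notMem fun x hx => ?_
      have h2 : Com {z : ℕ → DX | (z i).r n = true} (fun j => if j < m then dc x j else ⟨fun _ => false⟩)
          (i + 1) := by
        refine Com.anti hx (PiNat.mem_cylinder_iff.2 fun j hj => ?_) (by omega)
        rw [if_pos hj]
      obtain ⟨y, h3, h4, -⟩ := exists_of_com h2 h2
      have h5 := PiNat.mem_cylinder_iff.1 h3 i (Nat.lt_succ_self i)
      rw [if_neg h] at h5
      simp only [Set.mem_ofPred_eq, h5] at h4
      cases h4
    rw [h1]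
    exact Sp.borel _ MeasurableSet.empty

/-- The sigma algebra of these sets. -/
@[instance_reducible]
def gdS : MeasurableSpace (ℕ → DX) where
  MeasurableSet' := Gd
  measurableSet_empty := gd_empty
  measurableSet_compl := fun _ h => h.compl
  measurableSet_iUnion := fun _ h => Gd.iUnion h

theorem measurable_J' : @Measurable (ℕ → DX) (ℕ → Bool) gdS _ cj := by
  refine @measurable_pi_iff _ _ _ gdS _ _ |>.2 fun m => ?_
  exact @measurable_to_bool _ gdS _ (gd_eval m.unpair.1 m.unpair.2)

theorem gd_of_measurable {P : Set (ℕ → Bool)} (h : MeasurableSet P) :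
    Gd {z : ℕ → DX | cj z ∈ P} := measurable_J' h

/-- Borel bounded sets are sigma-projective. -/
theorem sp_of_bound {B : Set (ℕ → Bool)} {F : (ℕ → Bool) → ℕ → Bool} (hF : Measurable F)
    (hb : Bdd B F) : Sp B := by
  obtain ⟨w, hw⟩ := hb
  let E : ℕ → Set (ℕ → DX) := fun e =>
    {z | ∀ n : ℕ, (z n).r ∈ B ↔ encode ((n, true) : ℕ × Bool) ∈ WE (F (cj z)) e}
  have hm : ∀ (e k : ℕ), Gd {z : ℕ → DX | k ∈ WE (F (cj z)) e} := by
    intro e k
    have h1 : MeasurableSet {x : ℕ → Bool | WR (F x) e k = true} :=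
      ((measurable_pi_apply k).comp ((measurable_wr e).comp hF)) (MeasurableSet.singleton true)
    have h2 := gd_of_measurable h1
    simp only [Set.mem_ofPred_eq, wr_iff] at h2
    exact h2
  have hE : ∀ e, BaireMeasurableSet (E e) := by
    intro e
    have h1 : E e = ⋂ n : ℕ, ({z : ℕ → DX | (z n).r ∈ B} ∩
        {z | encode ((n, true) : ℕ × Bool) ∈ WE (F (cj z)) e}) ∪
        ({z : ℕ → DX | (z n).r ∈ B}ᶜ ∩ {z | encode ((n, true) : ℕ × Bool) ∈ WE (F (cj z)) e}ᶜ) := by
      ext z
      simp only [E, Set.mem_iInter, Set.mem_union, Set.mem_inter_iff, Set.mem_compl_iff,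
        Set.mem_ofPred_eq]
      exact forall_congr' fun n => by tauto
    rw [h1]
    have h2 : ∀ n : ℕ, BaireMeasurableSet (({z : ℕ → DX | (z n).r ∈ B} ∩
        {z | encode ((n, true) : ℕ × Bool) ∈ WE (F (cj z)) e}) ∪
        ({z : ℕ → DX | (z n).r ∈ B}ᶜ ∩ {z | encode ((n, true) : ℕ × Bool) ∈ WE (F (cj z)) e}ᶜ)) := by
      intro n
      have h3 : BaireMeasurableSet {z : ℕ → DX | (z n).r ∈ B} :=
        ((isOpen_discrete {x : DX | x.r ∈ B}).preimage
          (continuous_apply (A := fun _ : ℕ => DX) n)).baireMeasurableSet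
      exact (h3.inter (hm e _).1).union (h3.compl.inter (hm e _).1.compl)
    exact MeasurableSet.iInter h2
  -- some index works on a comeager subset of a cylinder
  obtain ⟨e, h1⟩ : ∃ e, ¬ Com (E e)ᶜ (fun _ => ⟨w⟩) 1 := by
    by_contra hcon
    push Not at hcon
    have h1 := com_iInter.2 hcon
    obtain ⟨z, hz, h2, -⟩ := exists_of_com h1 h1
    have h3 : TLe w (cj z) := by
      have h4 : cl (cj z) 0 = w := by
        rw [cl_cj]
        exact congrArg DX.r (PiNat.mem_cylinder_iff.1 hz 0 (by omega))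
      rw [← h4]
      exact cl_le _ _
    obtain ⟨i, hi⟩ := exists_index (hw (cj z) h3 (cj z) (TLe.refl _))
    refine (Set.mem_iInter.1 h2 i) fun n => ?_
    rw [← hi]
    simp [Tr, cl_cj]
  obtain ⟨p, -, k, -, h2⟩ := exists_com (hE e) h1
  let D : Set (ℕ → DX) := {z | encode ((k, true) : ℕ × Bool) ∈ WE (F (cj z)) e}
  let g : (ℕ → Bool) → ℕ → Bool := fun u n =>
    if n.unpair.1 < k then cj p n else u n.unpair.2
  have hg : Measurable g := by
    refine measurable_pi_iff.2 fun n => ?_
    simp only [g]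
    by_cases h : n.unpair.1 < k
    · simp only [h, if_true]
      exact measurable_const
    · simp only [h, if_false]
      exact measurable_pi_apply _
  have hg1 : ∀ u i, i < k → dc (g u) i = p i := by
    intro u i hi
    refine DX.ext (funext fun n => ?_)
    simp [dc, cl, g, hi, cj, J]
  have hg2 : ∀ u, dc (g u) k = ⟨u⟩ := by
    intro u
    refine DX.ext (funext fun n => ?_)
    simp [dc, cl, g]
  have key : ∀ u, u ∈ B ↔ Com D (dc (g u)) (k + 1) := by
    intro u
    have h3 : Com (E e) (dc (g u)) (k + 1) :=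
      h2.anti (PiNat.mem_cylinder_iff.2 fun i hi => hg1 u i hi) (Nat.le_succ k)
    constructor
    · intro hu
      unfold Com at h3 ⊢
      filter_upwards [h3] with z hz h4
      have h5 := PiNat.mem_cylinder_iff.1 h4 k (Nat.lt_succ_self k)
      rw [hg2] at h5
      refine (hz h4 k).1 ?_
      rw [h5]
      exact hu
    · intro h4
      obtain ⟨z, hz, h5, h6⟩ := exists_of_com h3 h4
      have h7 := PiNat.mem_cylinder_iff.1 hz k (Nat.lt_succ_self k)
      rw [hg2] at h7
      have h8 := (h5 k).2 h6
      rw [h7] at h8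
      exact h8
  have h3 : B = g ⁻¹' {x | Com D (dc x) (k + 1)} := by
    ext u
    exact key u
  rw [h3]
  exact Sp.preimage _ _ hg ((hm e _).2 _)

end Pool.Agent.N620.SP
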